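import Mathlib
import Pool.Agent.H32CE.All

/-!
# Commutator equations are decidable in every free nilpotent group

Mathlib's `(⊤ : Subgroup G).lowerCentralSeries c` is the term `γ_{c+1}(G)` of the lower central
series, so that the quotient below is the free nilpotent group `N_{r,c} = F_r / γ_{c+1}(F_r)`.
An element of it is given by a word in the generators and their inverses, that is by a list of
pairs (index of the generator, sign).
-/

namespace Pool.Agent.Results.MP_76db9d_al.Decidable

/-- For all `r` and `c` there is an algorithm that decides, given a word `w` in the free generators
`a_1, …, a_r` and their inverses, whether the equation `[x, y] = w` has a solution `x, y` in the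
free nilpotent group `F_r / γ_{c+1}(F_r)`. -/
theorem result (r c : ℕ) : ComputablePred (fun w : List (Fin r × Bool) =>
    ∃ x y : FreeGroup (Fin r) ⧸ (⊤ : Subgroup (FreeGroup (Fin r))).lowerCentralSeries c,
      x⁻¹ * y⁻¹ * x * y = QuotientGroup.mk (FreeGroup.mk w)) :=
  Pool.Agent.H32CE.x_FINAL r c

end Pool.Agent.Results.MP_76db9d_al.Decidable
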